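import Mathlib

namespace Pool.Agent.H.MP_b27533_gt

open MeasureTheory Metric
open scoped RealInnerProductSpace

section plane
variable {H : Type} [NormedAddCommGroup H] [InnerProductSpace ℝ H] (b : OrthonormalBasis (Fin 2) ℝ H)

theorem dec (y : H) : y = ⟪b 0, y⟫ • b 0 + ⟪b 1, y⟫ • b 1 := by
  have := b.sum_repr' y
  rw [Fin.sum_univ_two] at this
  exact this.symm

theorem i00 : ⟪b 0, b 0⟫ = 1 := by simp
theorem i11 : ⟪b 1, b 1⟫ = 1 := by simp
theorem i01 : ⟪b 0, b 1⟫ = 0 := b.orthonormal.2 (by decide)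
theorem i10 : ⟪b 1, b 0⟫ = 0 := b.orthonormal.2 (by decide)

theorem nsq (y : H) : ‖y‖ ^ 2 = ⟪b 0, y⟫ ^ 2 + ⟪b 1, y⟫ ^ 2 := by
  have := b.sum_inner_mul_inner y y
  rw [Fin.sum_univ_two, real_inner_self_eq_norm_sq, real_inner_comm (b 0) y,
    real_inner_comm (b 1) y] at this
  linarith

theorem refl0 (y : H) : (ℝ ∙ b 0).reflection y = ⟪b 0, y⟫ • b 0 - ⟪b 1, y⟫ • b 1 := by
  rw [Submodule.reflection_singleton_apply]
  conv_lhs => rw [dec b y]
  simp only [inner_add_right, inner_smul_right, i00, i01, b.orthonormal.1 0]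
  simp only [RCLike.ofReal_one]
  module

theorem refl1 (y : H) : (ℝ ∙ (b 0 + b 1)).reflection y = ⟪b 1, y⟫ • b 0 + ⟪b 0, y⟫ • b 1 := by
  rw [Submodule.reflection_singleton_apply]
  have h2 : ‖b 0 + b 1‖ ^ 2 = 2 := by
    rw [nsq b]; simp only [inner_add_right, i00, i01, i10, i11]; norm_num
  have h3 : ((‖b 0 + b 1‖ : ℝ) : ℝ) ^ 2 = 2 := h2
  conv_lhs => rw [dec b y]
  simp only [inner_add_right, inner_add_left, inner_smul_right, i00, i01, i10, i11]
  erw [h3]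
  module

/-- scaling along the first basis vector -/
noncomputable def sc (σ : ℝ) : H →ₗ[ℝ] H :=
  LinearMap.id + (σ - 1) • ((innerₛₗ ℝ (b 0)).smulRight (b 0))

theorem sc_apply (σ : ℝ) (y : H) : sc b σ y = y + ((σ - 1) * ⟪b 0, y⟫) • b 0 := by
  simp [sc, smul_smul]

theorem sc0 (σ : ℝ) (y : H) : ⟪b 0, sc b σ y⟫ = σ * ⟪b 0, y⟫ := by
  rw [sc_apply, inner_add_right, inner_smul_right, i00]; ring

theorem sc1 (σ : ℝ) (y : H) : ⟪b 1, sc b σ y⟫ = ⟪b 1, y⟫ := by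
  rw [sc_apply, inner_add_right, inner_smul_right, i10]; ring

theorem sc_sc (σ : ℝ) (hσ : σ ≠ 0) (y : H) : sc b σ⁻¹ (sc b σ y) = y := by
  rw [sc_apply b σ⁻¹, sc0, sc_apply, add_assoc, ← add_smul]
  have : (σ - 1) * ⟪b 0, y⟫ + (σ⁻¹ - 1) * (σ * ⟪b 0, y⟫) = 0 := by field_simp; ring
  rw [this]; simp

theorem sc_sym (σ : ℝ) (x y : H) : ⟪sc b σ x, y⟫ = ⟪x, sc b σ y⟫ := by
  rw [sc_apply, sc_apply, inner_add_left, inner_add_right, inner_smul_left, inner_smul_right,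
    real_inner_comm (b 0) x]
  simp only [conj_trivial]; ring

noncomputable def scE (σ : ℝ) (hσ : σ ≠ 0) : H ≃ₗ[ℝ] H :=
  LinearEquiv.ofLinearMap (sc b σ) (sc b σ⁻¹)
    (LinearMap.ext fun y => by
      have := sc_sc b σ⁻¹ (inv_ne_zero hσ) y
      rwa [inv_inv] at this)
    (LinearMap.ext fun y => sc_sc b σ hσ y)

theorem inv_of (N : H → ℝ) (g : H ≃ₗᵢ[ℝ] H) (hg : ∀ y, g (g y) = y) (hN : ∀ y, N (g y) = N y) :
    g '' {a | ∀ y, ⟪a, y⟫ ≤ N y} = {a | ∀ y, ⟪a, y⟫ ≤ N y} := by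
  have key : ∀ a : H, (∀ y, ⟪a, y⟫ ≤ N y) → ∀ y, ⟪g a, y⟫ ≤ N y := by
    intro a ha y
    rw [← hg y, g.inner_map_map, hN]
    exact ha _
  ext a
  constructor
  · rintro ⟨a, ha, rfl⟩; exact key a ha
  · intro ha; exact ⟨g a, key a ha, hg a⟩

theorem ball_of (c : H) (S : H ≃ₗ[ℝ] H) (E : Set H) (hE : E = (fun x => c + S x) '' closedBall 0 1)
    (h1 : (fun x => -x) '' E = E) (h2 : (ℝ ∙ b 0).reflection '' E = E)
    (h3 : (ℝ ∙ (b 0 + b 1)).reflection '' E = E) : ∃ (c : H) (r : ℝ), E = closedBall c r := by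
  have mem : ∀ x, x ∈ E ↔ ‖S.symm (x - c)‖ ≤ 1 := by
    intro x
    rw [hE]
    constructor
    · rintro ⟨z, hz, rfl⟩; simpa using hz
    · intro h; exact ⟨S.symm (x - c), by simpa using h, by simp⟩
  have hc : c = 0 := by
    by_contra hc
    have hv : S.symm c ≠ 0 := by simpa using hc
    have hp : 0 < ‖S.symm c‖ := norm_pos_iff.2 hv
    have a1 : c + ‖S.symm c‖⁻¹ • c ∈ E := by
      rw [mem]; simp [norm_smul, inv_mul_cancel₀ hp.ne']
    have a2 : -(c + ‖S.symm c‖⁻¹ • c) ∈ E := by rw [← h1]; exact ⟨_, a1, rfl⟩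
    rw [mem] at a2
    have a3 : -(c + ‖S.symm c‖⁻¹ • c) - c = (-(2 + ‖S.symm c‖⁻¹)) • c := by module
    rw [a3, map_smul, norm_smul, norm_neg, Real.norm_of_nonneg (by positivity), add_mul,
      inv_mul_cancel₀ hp.ne'] at a2
    linarith
  subst hc
  simp only [sub_zero] at mem
  have hle : ∀ g : H ≃ₗᵢ[ℝ] H, g '' E = E → ∀ x, ‖S.symm (g x)‖ ≤ ‖S.symm x‖ := by
    intro g hg x
    by_cases hx : x = 0
    · simp [hx]
    have hp : 0 < ‖S.symm x‖ := norm_pos_iff.2 (by simpa using hx)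
    have a1 : ‖S.symm x‖⁻¹ • x ∈ E := by
      rw [mem]; simp [norm_smul, inv_mul_cancel₀ hp.ne']
    have a2 : g (‖S.symm x‖⁻¹ • x) ∈ E := by rw [← hg]; exact ⟨_, a1, rfl⟩
    rw [mem, map_smul, map_smul, norm_smul, norm_inv, norm_norm, inv_mul_le_iff₀ hp] at a2
    linarith
  set p := S.symm (b 0) with hp
  set q := S.symm (b 1) with hq
  have e1 := hle _ h3 (b 0)
  have e2 := hle _ h3 (b 1)
  have e3 := hle _ h2 (b 0 + b 1)
  have e4 := hle _ h2 (b 0 - b 1)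
  simp only [refl0, refl1, i00, i01, i10, i11, zero_smul,
    one_smul, zero_add, add_zero, sub_zero, zero_sub, sub_neg_eq_add, map_add, map_neg,
    map_sub, ← hp, ← hq, ← sub_eq_add_neg] at e1 e2 e3 e4
  have f1 : ‖p‖ = ‖q‖ := le_antisymm e2 e1
  have f2 : ⟪p, q⟫ = 0 := by
    have := le_antisymm e3 e4
    have a1 := norm_add_sq_real p q
    have a2 := norm_sub_sq_real p q
    rw [this] at a2
    linarith
  have hp0 : 0 < ‖p‖ := norm_pos_iff.2 (by
    rw [hp]; simpa using b.orthonormal.ne_zero 0)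
  have f3 : ∀ x, ‖S.symm x‖ = ‖p‖ * ‖x‖ := by
    intro x
    have : ‖S.symm x‖ ^ 2 = (‖p‖ * ‖x‖) ^ 2 := by
      rw [mul_pow, nsq b x]
      conv_lhs => rw [dec b x]
      rw [map_add, map_smul, map_smul, ← hp, ← hq, norm_add_sq_real, inner_smul_left,
        inner_smul_right, f2, norm_smul, norm_smul, mul_pow, mul_pow, Real.norm_eq_abs,
        Real.norm_eq_abs, sq_abs, sq_abs, ← f1]
      ring
    exact (pow_left_inj₀ (norm_nonneg _) (by positivity) two_ne_zero).1 this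
  refine ⟨0, ‖p‖⁻¹, Set.ext fun x => ?_⟩
  rw [mem, f3, mem_closedBall_zero_iff, ← le_div_iff₀' hp0, one_div]

end plane

abbrev E := EuclideanSpace ℝ (Fin 3)

instance : Fact (1 ≤ (4 : ENNReal)) := ⟨by norm_num⟩

/-- the support function -/
noncomputable def h (y : E) : ℝ := ‖(WithLp.toLp 4 (y, y 2) : WithLp 4 (E × ℝ))‖

theorem h_nonneg (y : E) : 0 ≤ h y := norm_nonneg _

theorem h_pow (y : E) : h y ^ 4 = ‖y‖ ^ 4 + y 2 ^ 4 := by
  unfold h
  rw [WithLp.prod_norm_eq_add (by norm_num)]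
  have e : (4 : ENNReal).toReal = ((4 : ℕ) : ℝ) := by norm_num
  rw [e, one_div, Real.rpow_inv_natCast_pow (by positivity) (by norm_num)]
  simp only [Real.rpow_natCast, WithLp.toLp_fst, WithLp.toLp_snd, Real.norm_eq_abs]
  rw [show |y 2| ^ 4 = y 2 ^ 4 from by rw [← abs_pow]; exact abs_of_nonneg (by positivity)]

theorem h_add (x y : E) : h (x + y) ≤ h x + h y := by
  unfold h
  rw [show (WithLp.toLp 4 (x + y, (x + y) 2) : WithLp 4 (E × ℝ)) =
    WithLp.toLp 4 (x, x 2) + WithLp.toLp 4 (y, y 2) from rfl]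
  exact norm_add_le _ _

theorem h_smul (c : ℝ) (y : E) : h (c • y) = |c| * h y := by
  unfold h
  rw [show (WithLp.toLp 4 (c • y, (c • y) 2) : WithLp 4 (E × ℝ)) =
    c • WithLp.toLp 4 (y, y 2) from rfl, norm_smul, Real.norm_eq_abs]

theorem le_h (y : E) : ‖y‖ ≤ h y := by
  refine le_of_pow_le_pow_left₀ (n := 4) (by norm_num) (h_nonneg y) ?_
  rw [h_pow]; nlinarith [sq_nonneg (y 2 ^ 2)]

theorem h_le (y : E) : h y ≤ 2 * ‖y‖ := by
  refine le_of_pow_le_pow_left₀ (n := 4) (by norm_num) (by positivity) ?_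
  rw [h_pow]
  have h1 : |y 2| ≤ ‖y‖ := by simpa using PiLp.norm_apply_le y 2
  have h2 : y 2 ^ 4 ≤ ‖y‖ ^ 4 := by
    rw [show y 2 ^ 4 = |y 2| ^ 4 from by rw [← abs_pow]; exact (abs_of_nonneg (by positivity)).symm]
    exact pow_le_pow_left₀ (abs_nonneg _) h1 4
  nlinarith [pow_nonneg (norm_nonneg y) 4]

/-- the body -/
def K : Set E := {x | ∀ y, ⟪x, y⟫ ≤ h y}

theorem ball_sub : closedBall (0 : E) 1 ⊆ K := by
  intro x hx y
  rw [mem_closedBall_zero_iff] at hx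
  have := real_inner_le_norm x y
  nlinarith [le_h y, norm_nonneg y]

theorem K_compact : IsCompact K := by
  refine (isCompact_closedBall (0 : E) 2).of_isClosed_subset ?_ ?_
  · have : K = ⋂ y, {x : E | ⟪x, y⟫ ≤ h y} := by ext x; simp [K]
    rw [this]
    exact isClosed_iInter fun y => isClosed_le (by fun_prop) continuous_const
  · intro x hx
    rw [mem_closedBall_zero_iff]
    have a1 := hx x
    rw [real_inner_self_eq_norm_sq] at a1
    nlinarith [h_le x, norm_nonneg x]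

theorem K_convex : Convex ℝ K := by
  intro x hx x' hx' a c ha hc hac y
  rw [inner_add_left, inner_smul_left, inner_smul_left]
  simp only [conj_trivial]
  have : h y = a * h y + c * h y := by rw [← add_mul, hac, one_mul]
  rw [this]
  exact add_le_add (mul_le_mul_of_nonneg_left (hx y) ha) (mul_le_mul_of_nonneg_left (hx' y) hc)

theorem HB (H : Submodule ℝ E) (p : E) (hp : ∀ y ∈ H, ⟪p, y⟫ ≤ h y) :
    ∃ x ∈ K, ∀ y ∈ H, ⟪x, y⟫ = ⟪p, y⟫ := by
  obtain ⟨g, hg1, hg2⟩ := exists_extension_of_le_sublinear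
    (⟨H, (innerₛₗ ℝ p).comp H.subtype⟩ : E →ₗ.[ℝ] ℝ) h
    (fun c hc x => by rw [h_smul, abs_of_pos hc]) h_add (fun x => hp x x.2)
  refine ⟨(InnerProductSpace.toDual ℝ E).symm (LinearMap.toContinuousLinearMap g), fun y => ?_,
    fun y hy => ?_⟩
  · rw [InnerProductSpace.toDual_symm_apply]; exact hg2 y
  · rw [InnerProductSpace.toDual_symm_apply]; exact hg1 ⟨y, hy⟩

theorem proj_eq (H : Submodule ℝ E) :
    H.orthogonalProjectionOnto '' K = {p : H | ∀ y : H, ⟪p, y⟫ ≤ h y} := by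
  ext p
  constructor
  · rintro ⟨x, hx, rfl⟩ y
    rw [Submodule.inner_orthogonalProjectionOnto_eq_of_mem_right]
    exact hx y
  · intro hp
    obtain ⟨x, hx, hx'⟩ := HB H p fun y hy => hp ⟨y, hy⟩
    refine ⟨x, hx, ext_inner_right ℝ fun y => ?_⟩
    rw [Submodule.inner_orthogonalProjectionOnto_eq_of_mem_right]
    exact hx' y y.2

theorem not_ell : ¬ ∃ T : E ≃ₗ[ℝ] E, K = T '' closedBall 0 1 := by
  rintro ⟨T, hT⟩
  have key : ∀ y, h y = ‖LinearMap.adjoint (T : E →ₗ[ℝ] E) y‖ := by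
    intro y
    apply le_antisymm
    · by_cases hy : y = 0
      · have := h_le y
        rw [hy] at this ⊢
        simpa using this
      have hn : 0 < ‖y‖ := norm_pos_iff.2 hy
      obtain ⟨x, hx, hx'⟩ := HB (ℝ ∙ y) ((h y / ‖y‖ ^ 2) • y) (by
        intro z hz
        obtain ⟨c, rfl⟩ := Submodule.mem_span_singleton.1 hz
        rw [inner_smul_left, inner_smul_right, real_inner_self_eq_norm_sq, h_smul]
        simp only [conj_trivial]
        have : h y / ‖y‖ ^ 2 * (c * ‖y‖ ^ 2) = c * h y := by field_simp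
        rw [this]
        exact mul_le_mul_of_nonneg_right (le_abs_self c) (h_nonneg y))
      have a1 := hx' y (Submodule.mem_span_singleton_self y)
      rw [inner_smul_left, real_inner_self_eq_norm_sq] at a1
      simp only [conj_trivial] at a1
      rw [div_mul_cancel₀ _ (by positivity)] at a1
      rw [hT] at hx
      obtain ⟨z, hz, rfl⟩ := hx
      rw [mem_closedBall_zero_iff] at hz
      have a2 : ⟪T z, y⟫ = ⟪z, LinearMap.adjoint (T : E →ₗ[ℝ] E) y⟫ :=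
        (LinearMap.adjoint_inner_right (T : E →ₗ[ℝ] E) z y).symm
      have a3 := real_inner_le_norm z (LinearMap.adjoint (T : E →ₗ[ℝ] E) y)
      nlinarith [norm_nonneg (LinearMap.adjoint (T : E →ₗ[ℝ] E) y)]
    · set v := LinearMap.adjoint (T : E →ₗ[ℝ] E) y with hv
      by_cases hv0 : v = 0
      · rw [hv0, norm_zero]; exact h_nonneg y
      have hn : 0 < ‖v‖ := norm_pos_iff.2 hv0
      have a1 : T (‖v‖⁻¹ • v) ∈ K := by
        rw [hT]
        exact ⟨_, by simp [norm_smul, inv_mul_cancel₀ hn.ne'], rfl⟩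
      have a2 := a1 y
      have a3 : ⟪T (‖v‖⁻¹ • v), y⟫ = ⟪‖v‖⁻¹ • v, v⟫ :=
        (LinearMap.adjoint_inner_right (T : E →ₗ[ℝ] E) _ y).symm
      rw [a3, inner_smul_left, real_inner_self_eq_norm_sq] at a2
      simp only [conj_trivial] at a2
      have : ‖v‖⁻¹ * ‖v‖ ^ 2 = ‖v‖ := by field_simp
      linarith
  have par := parallelogram_law_with_norm ℝ
    (LinearMap.adjoint (T : E →ₗ[ℝ] E) (EuclideanSpace.single 0 1))
    (LinearMap.adjoint (T : E →ₗ[ℝ] E) (EuclideanSpace.single 2 1))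
  rw [← map_add, ← map_sub, ← key, ← key, ← key, ← key] at par
  have n4 : ∀ y : E, ‖y‖ ^ 4 = (y 0 ^ 2 + y 1 ^ 2 + y 2 ^ 2) ^ 2 := by
    intro y
    rw [show ‖y‖ ^ 4 = (‖y‖ ^ 2) ^ 2 by ring, EuclideanSpace.real_norm_sq_eq, Fin.sum_univ_three]
  have p1 := h_pow (EuclideanSpace.single 0 1)
  have p2 := h_pow (EuclideanSpace.single 2 1)
  have p3 := h_pow (EuclideanSpace.single 0 1 + EuclideanSpace.single 2 1)
  have p4 := h_pow (EuclideanSpace.single 0 1 - EuclideanSpace.single 2 1)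
  rw [n4] at p1 p2 p3 p4
  generalize h (EuclideanSpace.single 0 1) = a at par p1
  generalize h (EuclideanSpace.single 2 1) = c at par p2
  generalize h (EuclideanSpace.single 0 1 + EuclideanSpace.single 2 1) = d at par p3
  generalize h (EuclideanSpace.single 0 1 - EuclideanSpace.single 2 1) = e at par p4
  simp at p1 p2 p3 p4
  norm_num at p1 p2 p3 p4
  have q1 : a ^ 2 = 1 := by nlinarith [sq_nonneg a]
  have q2 : d ^ 2 = e ^ 2 := by
    refine (pow_left_inj₀ (sq_nonneg d) (sq_nonneg e) two_ne_zero).1 ?_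
    nlinarith
  have q3 : d ^ 2 = 1 + c ^ 2 := by nlinarith
  have q4 : (1 + c ^ 2) ^ 2 = 5 := by rw [← q3]; nlinarith
  have q5 : c ^ 2 = 1 := by nlinarith
  nlinarith

theorem basis_ex (u : E) (hu : ‖u‖ = 1) : ∃ (b : OrthonormalBasis (Fin 2) ℝ (ℝ ∙ u)ᗮ) (c : ℝ),
    ∀ y : (ℝ ∙ u)ᗮ, (y : E) 2 = c * ⟪b 0, y⟫ := by
  have : Fact (Module.finrank ℝ E = 2 + 1) := ⟨by simp⟩
  have hd : Module.finrank ℝ (ℝ ∙ u)ᗮ = 2 :=
    Submodule.finrank_orthogonal_span_singleton (by rintro rfl; simp at hu)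
  set w := (ℝ ∙ u)ᗮ.orthogonalProjectionOnto (EuclideanSpace.single 2 1) with hw
  have hy : ∀ y : (ℝ ∙ u)ᗮ, (y : E) 2 = ⟪w, y⟫ := by
    intro y
    rw [hw, Submodule.inner_orthogonalProjectionOnto_eq_of_mem_right]
    simp [EuclideanSpace.inner_single_left]
  by_cases h0 : w = 0
  · refine ⟨(stdOrthonormalBasis ℝ _).reindex (finCongr hd), 0, fun y => ?_⟩
    rw [hy, h0]; simp
  · have hn : 0 < ‖w‖ := norm_pos_iff.2 h0
    obtain ⟨b, hb⟩ := Orthonormal.exists_orthonormalBasis_extension_of_card_eq (𝕜 := ℝ)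
      (ι := Fin 2) (by simpa using hd) (v := fun _ => ‖w‖⁻¹ • w) (s := {0}) (by
        constructor
        · intro i
          show ‖‖w‖⁻¹ • w‖ = 1
          rw [norm_smul, norm_inv, norm_norm, inv_mul_cancel₀ hn.ne']
        · intro i j hij
          exact absurd (Subsingleton.elim i j) hij)
    refine ⟨b, ‖w‖, fun y => ?_⟩
    rw [hy, hb 0 rfl, inner_smul_left]
    simp only [conj_trivial]
    field_simp

theorem main (u : E) (hu : ‖u‖ = 1) :
    ∃ (T : (ℝ ∙ u)ᗮ ≃ₗ[ℝ] (ℝ ∙ u)ᗮ) (A : Set (ℝ ∙ u)ᗮ) (b : OrthonormalBasis (Fin 2) ℝ (ℝ ∙ u)ᗮ),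
      (ℝ ∙ u)ᗮ.orthogonalProjectionOnto '' K = T '' A ∧ IsCompact A ∧ (interior A).Nonempty ∧
      (fun x => -x) '' A = A ∧ (ℝ ∙ b 0).reflection '' A = A ∧
      (ℝ ∙ (b 0 + b 1)).reflection '' A = A := by
  obtain ⟨b, c, hc⟩ := basis_ex u hu
  obtain ⟨σ, hσ, hσ4⟩ : ∃ σ : ℝ, 0 < σ ∧ σ ^ 4 * (1 + c ^ 4) = 1 := by
    have hp : 0 < 1 + c ^ 4 := by positivity
    refine ⟨(1 + c ^ 4)⁻¹ ^ ((4 : ℕ) : ℝ)⁻¹, by positivity, ?_⟩
    rw [Real.rpow_inv_natCast_pow (by positivity) (by norm_num), inv_mul_cancel₀ hp.ne']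
  let N : (ℝ ∙ u)ᗮ → ℝ := fun y => h (sc b σ y : (ℝ ∙ u)ᗮ)
  have hN : ∀ y, N y ^ 4 = ⟪b 0, y⟫ ^ 4 + 2 * σ ^ 2 * ⟪b 0, y⟫ ^ 2 * ⟪b 1, y⟫ ^ 2 + ⟪b 1, y⟫ ^ 4 := by
    intro y
    simp only [N]
    rw [h_pow, hc, ← Submodule.coe_norm, show ‖sc b σ y‖ ^ 4 = (‖sc b σ y‖ ^ 2) ^ 2 by ring, nsq b,
      sc0, sc1]
    linear_combination ⟪b 0, y⟫ ^ 4 * hσ4
  have hN' : ∀ y y', N y ^ 4 = N y' ^ 4 → N y = N y' := fun y y' e =>
    (pow_left_inj₀ (h_nonneg _) (h_nonneg _) (by norm_num)).1 e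
  have hA : {a : (ℝ ∙ u)ᗮ | ∀ y, ⟪a, y⟫ ≤ N y} =
      scE b σ hσ.ne' '' ((ℝ ∙ u)ᗮ.orthogonalProjectionOnto '' K) := by
    rw [proj_eq]
    ext a
    constructor
    · intro ha
      refine ⟨sc b σ⁻¹ a, fun y => ?_, (scE b σ hσ.ne').apply_symm_apply a⟩
      have := ha (sc b σ⁻¹ y)
      simp only [N] at this
      rw [sc_sym]
      have e : sc b σ (sc b σ⁻¹ y) = y := (scE b σ hσ.ne').apply_symm_apply y
      rwa [e] at this
    · rintro ⟨p, hp, rfl⟩ y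
      have : ⟪scE b σ hσ.ne' p, y⟫ = ⟪p, sc b σ y⟫ := sc_sym b σ p y
      rw [this]
      exact hp _
  refine ⟨(scE b σ hσ.ne').symm, {a | ∀ y, ⟪a, y⟫ ≤ N y}, b, ?_, ?_, ?_, ?_, ?_, ?_⟩
  · rw [hA, ← Set.image_comp]; simp
  · rw [hA]
    exact (K_compact.image (ContinuousLinearMap.continuous _)).image
      (scE b σ hσ.ne').toContinuousLinearEquiv.continuous
  · have ho : IsOpen ((scE b σ hσ.ne').toContinuousLinearEquiv '' ball 0 1) :=
      (scE b σ hσ.ne').toContinuousLinearEquiv.toHomeomorph.isOpenMap _ isOpen_ball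
    refine ⟨_, interior_maximal ?_ ho ⟨0, mem_ball_self one_pos, rfl⟩⟩
    rw [hA]
    rintro _ ⟨p, hp, rfl⟩
    refine ⟨p, ⟨p, ball_sub ?_, by simp⟩, rfl⟩
    rw [mem_ball_zero_iff] at hp
    rw [mem_closedBall_zero_iff]
    exact hp.le
  · refine inv_of N (LinearIsometryEquiv.neg ℝ) (fun y => by simp) fun y => hN' _ _ ?_
    rw [hN, hN]
    simp only [LinearIsometryEquiv.coe_neg, inner_neg_right]
    ring
  · refine inv_of N _ (fun y => by simp) fun y => hN' _ _ ?_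
    rw [hN, hN, refl0]
    simp only [inner_sub_right, inner_smul_right, i00, i01, i10, i11]
    ring
  · refine inv_of N _ (fun y => by simp) fun y => hN' _ _ ?_
    rw [hN, hN, refl1]
    simp only [inner_add_right, inner_smul_right, i00, i01, i10, i11]
    ring

end Pool.Agent.H.MP_b27533_gt
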